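import Pool.Agent.N290.RJ.Stm
import Pool.Agent.N290.RJ.Un

/-!
Project RJ (helper290), part SP (helper394): the Schwarz-Pick lemma on the ball of `ℂ^(d+1)`, after
`Pool.Agent.N457.RI.SP` (helper457).
-/

set_option autoImplicit false

open Complex MeasureTheory Set Filter Topology

namespace Pool.Agent.N394.RJ

open Pool.Agent.N290.RJ

variable {d : ℕ}

theorem den_ne {x : ℝ} (h0 : 0 ≤ x) (h1 : x < 1) {w : E d} (hw : w ∈ B d) :
    1 - (x : ℂ) * w.1 ≠ 0 := by
  intro h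
  have h2 : (x : ℂ) * w.1 = 1 := (sub_eq_zero.1 h).symm
  have h3 : x * ‖w.1‖ = 1 := by
    have := congrArg norm h2
    rwa [norm_mul, Complex.norm_real, Real.norm_of_nonneg h0, norm_one] at this
  have h4 : ‖w.1‖ ^ 2 < 1 := by
    have h : N w < 1 := hw
    unfold N at h
    have h5 : 0 ≤ ∑ i, ‖w.2 i‖ ^ 2 := Finset.sum_nonneg fun i _ => sq_nonneg _
    linarith
  have h5 : ‖w.1‖ < 1 := by
    by_contra hcon
    push Not at hcon
    nlinarith
  nlinarith [norm_nonneg w.1]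

theorem len_zero (η : E d) : len 0 η = nm η := by
  unfold len nm len2
  congr 1
  simp [N, ip]

theorem N_eq_zero {η : E d} (h : N η = 0) : η = 0 := by
  unfold N at h
  have h1 : 0 ≤ ∑ i, ‖η.2 i‖ ^ 2 := Finset.sum_nonneg fun i _ => sq_nonneg _
  have h2 : ‖η.1‖ ^ 2 = 0 := by nlinarith [sq_nonneg ‖η.1‖]
  have h3 : ∑ i, ‖η.2 i‖ ^ 2 = 0 := by nlinarith [sq_nonneg ‖η.1‖]
  rw [Finset.sum_eq_zero_iff_of_nonneg fun i _ => sq_nonneg _] at h3
  refine Prod.ext ?_ (funext fun i => ?_)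
  · rw [sq_eq_zero_iff, norm_eq_zero] at h2
    exact h2
  · have h4 := h3 i (Finset.mem_univ i)
    rw [sq_eq_zero_iff, norm_eq_zero] at h4
    exact h4

theorem one_var (F : E d → ℂ) (hF : ∀ w ∈ B d, DifferentiableAt ℂ F w)
    (hb : ∀ w ∈ B d, ‖F w‖ ≤ 1) (η : E d) : ‖fderiv ℂ F 0 η‖ ≤ nm η := by
  rcases (nm_nonneg η).lt_or_eq with hη | hη
  · set K : ℝ := ‖fderiv ℂ F 0 η‖ with hK
    have hlin : ∀ τ : ℂ, HasDerivAt (fun τ : ℂ => τ • η) η τ := by
      intro τ
      simpa using (hasDerivAt_id τ).smul_const η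
    have hmem : ∀ τ : ℂ, ‖τ‖ < 1 / nm η → τ • η ∈ B d := by
      intro τ hτ
      rw [mem_B, N_smulc, ← nm_sq, ← mul_pow]
      rw [lt_div_iff₀ hη] at hτ
      have : 0 ≤ ‖τ‖ * nm η := by positivity
      exact pow_lt_one₀ this hτ two_ne_zero
    have hg : ∀ τ : ℂ, ‖τ‖ < 1 / nm η → HasDerivAt (fun τ : ℂ => F (τ • η))
        (fderiv ℂ F (τ • η) η) τ := by
      intro τ hτ
      exact (hF _ (hmem τ hτ)).hasFDerivAt.comp_hasDerivAt τ (hlin τ)
    have h0 : deriv (fun τ : ℂ => F (τ • η)) 0 = fderiv ℂ F 0 η := by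
      have := (hg 0 (by rw [norm_zero]; positivity)).deriv
      rwa [zero_smul] at this
    have key : ∀ s : ℝ, 0 < s → s < 1 → K * (s / nm η) ≤ 1 := by
      intro s hs0 hs1
      have hr : 0 < s / nm η := by positivity
      have hlt : s / nm η < 1 / nm η := div_lt_div_of_pos_right hs1 hη
      have h := Complex.norm_deriv_le_of_forall_mem_sphere_norm_le (f := fun τ : ℂ => F (τ • η))
        (c := 0) (C := 1) hr ?_ ?_
      · rw [h0, ← hK, le_div_iff₀ hr] at h
        exact h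
      · refine DifferentiableOn.diffContOnCl ?_
        rw [closure_ball (0 : ℂ) hr.ne']
        intro τ hτ
        rw [mem_closedBall_zero_iff] at hτ
        exact (hg τ (hτ.trans_lt hlt)).differentiableAt.differentiableWithinAt
      · intro τ hτ
        rw [mem_sphere_zero_iff_norm] at hτ
        exact hb _ (hmem τ (hτ.trans_lt hlt))
    by_contra hcon
    push Not at hcon
    have hK0 : 0 < K := hη.trans hcon
    have h2 := key ((1 + nm η / K) / 2) (by positivity) (by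
      have : nm η / K < 1 := by rwa [div_lt_one hK0]
      linarith)
    have h3 : K * ((1 + nm η / K) / 2 / nm η) = (K / nm η + 1) / 2 := by field_simp
    rw [h3] at h2
    have h4 : 1 < K / nm η := by rwa [one_lt_div hη]
    linarith
  · have hN : N η = 0 := by rw [← nm_sq, ← hη]; norm_num
    rw [N_eq_zero hN, map_zero, norm_zero]
    exact nm_nonneg _

/-- the Schwarz-Pick lemma on the ball -/
theorem SP_of (d : ℕ) (h4b : C4b d) (h6 : C6 d) : SP d := by
  intro f hf hfb z hz ξ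
  set x : ℝ := nm z with hx
  have hx0 : 0 ≤ x := nm_nonneg z
  have hx1 : x < 1 := mem_B_nm.1 hz
  have hx2 : 0 < 1 - x ^ 2 := by nlinarith
  obtain ⟨U, hU, hbij, hUz⟩ := h4b z
  rw [← hx] at hUz
  have hPh0 : Ph x (0 : E d) = ((x : ℂ), 0) := by
    unfold Ph
    simp
  have hPhB : ∀ w ∈ B d, Ph x w ∈ B d := by
    intro w hw
    have h := (h6 x hx0 hx1 w hw).2.2.1
    have hd := norm_pos_iff.2 (den_ne hx0 hx1 hw)
    have hw1 : 0 < 1 - N w := sub_pos.2 hw
    have : 0 < 1 - N (Ph x w) := by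
      rw [h]
      positivity
    rw [mem_B]
    linarith
  have hmem : ∀ w ∈ B d, U (Ph x w) ∈ B d := fun w hw => (hU.mem _).2 (hPhB w hw)
  have hder : ∀ w ∈ B d, HasFDerivAt (fun w => f (U (Ph x w)))
      ((fderiv ℂ f (U (Ph x w))).comp (U.comp (fderiv ℂ (Ph x) w))) w := by
    intro w hw
    have h1 : HasFDerivAt (Ph x) (fderiv ℂ (Ph x) w) w := (h6 x hx0 hx1 w hw).1.hasFDerivAt
    have h2 : HasFDerivAt (fun w => U (Ph x w)) (U.comp (fderiv ℂ (Ph x) w)) w :=
      U.hasFDerivAt.comp w h1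
    have h3 : HasFDerivAt f (fderiv ℂ f (U (Ph x w))) (U (Ph x w)) :=
      (hf.differentiableAt (B_open.mem_nhds (hmem w hw))).hasFDerivAt
    exact h3.comp w h2
  obtain ⟨-, hfd, -, hlen, -, -⟩ := h6 x hx0 hx1 0 zero_mem_B
  -- surjectivity
  obtain ⟨ζ, hζ⟩ := hbij.2 ξ
  have hs0 : (Real.sqrt (1 - x ^ 2) : ℂ) ≠ 0 := by
    exact_mod_cast (Real.sqrt_pos.2 hx2).ne'
  have hxc : (1 - (x : ℂ) ^ 2) ≠ 0 := by
    exact_mod_cast hx2.ne'
  set η : E d := (-ζ.1 / (1 - (x : ℂ) ^ 2), fun i => -ζ.2 i / (Real.sqrt (1 - x ^ 2) : ℂ)) with hη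
  have hdη : dPh x 0 η = ζ := by
    unfold dPh
    refine Prod.ext ?_ (funext fun i => ?_)
    · simp only [hη, Prod.fst_zero, mul_zero, sub_zero, one_pow, div_one]
      field_simp
    · simp only [hη, Prod.fst_zero, Prod.snd_zero, mul_zero, sub_zero, one_pow, div_one, smul_zero,
        add_zero, Pi.smul_apply, smul_eq_mul]
      field_simp
  have e1 : fderiv ℂ (fun w => f (U (Ph x w))) 0 η = fderiv ℂ f z ξ := by
    rw [(hder 0 zero_mem_B).fderiv]
    simp only [ContinuousLinearMap.comp_apply]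
    rw [hfd η, hdη, hζ, hPh0, hUz]
  have e2 := one_var (fun w => f (U (Ph x w))) (fun w hw => (hder w hw).differentiableAt)
    (fun w hw => hfb _ (hmem w hw)) η
  rw [e1] at e2
  refine e2.trans (le_of_eq ?_)
  rw [← len_zero, ← hlen η, hdη, hPh0, ← hU.len, hUz, hζ]

end Pool.Agent.N394.RJ
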